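import Mathlib

/-!
# A graph with minimum degree 9 and chromatic number 9 without an immersion of `K_10`

Join each vertex of `K_9` by a single edge to its own copy of `K_{3,3,3,3}`. All corners of an
immersion of `K_10` would lie in one copy of `K_{3,3,3,3}`. There each of the nine edges at a corner
is the first edge of one of the nine paths at this corner. If the three vertices of a part are
corners and `x`, `y` are the two vertices of the copy that are not corners, a parity count at `x`
shows that the edge `xy` lies on a path between two corners of that part; but this holds for at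
least two parts.
-/

set_option autoImplicit false

namespace Pool.Agent.Results.MP_5ee7f3_co.ChromaticNine

open SimpleGraph

/-- `G` has an immersion of `K_d`: distinct corners `c i` and, for `i < j`, paths from `c i` to
`c j` which are pairwise edge-disjoint. -/
def HasImmersion {V : Type} (G : SimpleGraph V) (d : ℕ) : Prop :=
  ∃ (c : Fin d → V) (P : (i j : Fin d) → G.Walk (c i) (c j)), Function.Injective c ∧
    (∀ i j, i < j → (P i j).IsPath) ∧
    ∀ i j k l, i < j → k < l → (i, j) ≠ (k, l) → ∀ e, e ∈ (P i j).edges → e ∉ (P k l).edges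

/-- the vertices: `(i, none)` is the vertex `i` of `K_9`, and `(i, some (p, q))` is the `q`-th
vertex of the part `p` of the `i`-th copy of `K_{3,3,3,3}` -/
abbrev V : Type := Fin 9 × Option (Fin 4 × Fin 3)

/-- adjacency -/
def adjB : V → V → Bool
  | (i, none), (j, none) => i != j
  | (i, none), (j, some h) => i == j && h == (0, 0)
  | (i, some h), (j, none) => i == j && h == (0, 0)
  | (i, some h), (j, some h') => i == j && h.1 != h'.1

theorem adjB_symm (u v : V) (h : adjB u v = true) : adjB v u = true := by
  obtain ⟨i, _ | h1⟩ := u <;> obtain ⟨j, _ | h2⟩ := v <;>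
    simp only [adjB, bne_iff_ne, beq_iff_eq, Bool.and_eq_true] at h ⊢
  · exact h.symm
  · exact ⟨h.1.symm, h.2⟩
  · exact ⟨h.1.symm, h.2⟩
  · exact ⟨h.1.symm, h.2.symm⟩

/-- the graph -/
def G : SimpleGraph V where
  Adj u v := adjB u v = true
  symm := ⟨adjB_symm⟩
  loopless := ⟨fun x h => by
    obtain ⟨i, _ | h1⟩ := x <;> simp [adjB] at h⟩

instance : DecidableRel G.Adj := fun u v => inferInstanceAs (Decidable (_ = true))

theorem degree_none (i : Fin 9) : G.degree (i, none) = 9 := by
  revert i; decide +kernel

theorem nine_le_degree (v : V) : 9 ≤ G.degree v := by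
  revert v; decide +kernel

theorem minDegree_G : G.minDegree = 9 := by
  apply le_antisymm
  · have := G.minDegree_le_degree (0, none)
    rwa [degree_none] at this
  · exact G.le_minDegree_of_forall_le_degree 9 nine_le_degree

/-- a colouring with nine colours -/
def col : V → Fin 9
  | (i, none) => i
  | (i, some h) => i + 1 + Fin.castLE (by norm_num) h.1

theorem colorable_G : G.Colorable 9 := by
  refine ⟨Coloring.mk col ?_⟩
  have : ∀ u v : V, adjB u v = true → col u ≠ col v := by decide +kernel
  exact fun {u v} h => this u v h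

theorem not_colorable_G : ¬ G.Colorable 8 := by
  intro h
  have hc : G.IsClique ((Finset.univ.image (fun i : Fin 9 => ((i, none) : V)) : Finset V) : Set V) := by
    intro u hu v hv huv
    rw [Finset.mem_coe, Finset.mem_image] at hu hv
    obtain ⟨i, -, rfl⟩ := hu
    obtain ⟨j, -, rfl⟩ := hv
    show adjB _ _ = true
    simp only [adjB, bne_iff_ne]
    intro hij; exact huv (by rw [hij])
  have := hc.card_le_of_colorable h
  rw [Finset.card_image_of_injective _ (fun i j hij => by simpa using hij)] at this
  simp at this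

theorem chromaticNumber_G : G.chromaticNumber = 9 := by
  have := (chromaticNumber_eq_iff_colorable_not_colorable (G := G) (n := 8)).mpr
    ⟨colorable_G, not_colorable_G⟩
  rw [this]; rfl

section immersion

variable {c : Fin 10 → V} {P : (i j : Fin 10) → G.Walk (c i) (c j)}

/-- edges of the path between `c a` and `c b` -/
def Q (P : (i j : Fin 10) → G.Walk (c i) (c j)) (a b : Fin 10) : Finset (Sym2 V) :=
  if a < b then (P a b).edges.toFinset else (P b a).edges.toFinset

theorem Q_symm (a b : Fin 10) (h : a ≠ b) : Q P a b = Q P b a := by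
  unfold Q
  rcases lt_or_gt_of_ne h with h1 | h1
  · rw [if_pos h1, if_neg (not_lt.mpr h1.le)]
  · rw [if_neg (not_lt.mpr h1.le), if_pos h1]

theorem Q_path (hP : ∀ i j, i < j → (P i j).IsPath) (a b : Fin 10) (h : a ≠ b) :
    ∃ p : G.Walk (c a) (c b), p.IsPath ∧ ∀ e, e ∈ p.edges ↔ e ∈ Q P a b := by
  rcases lt_or_gt_of_ne h with h1 | h1
  · refine ⟨P a b, hP a b h1, fun e => ?_⟩
    unfold Q; rw [if_pos h1, List.mem_toFinset]
  · refine ⟨(P b a).reverse, (hP b a h1).reverse, fun e => ?_⟩
    unfold Q
    rw [if_neg (not_lt.mpr h1.le), List.mem_toFinset, Walk.edges_reverse, List.mem_reverse]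

theorem Q_disj (hd : ∀ i j k l, i < j → k < l → (i, j) ≠ (k, l) → ∀ e, e ∈ (P i j).edges →
    e ∉ (P k l).edges) (a b a' b' : Fin 10) (h : a ≠ b) (h' : a' ≠ b') (e : Sym2 V)
    (he : e ∈ Q P a b) (he' : e ∈ Q P a' b') : (a = a' ∧ b = b') ∨ (a = b' ∧ b = a') := by
  unfold Q at he he'
  have key : ∀ i j k l : Fin 10, i < j → k < l → e ∈ (P i j).edges → e ∈ (P k l).edges →
      i = k ∧ j = l := by
    intro i j k l h1 h2 h3 h4
    by_contra hne
    exact hd i j k l h1 h2 (fun h => hne (by simpa using h)) e h3 h4
  rcases lt_or_gt_of_ne h with h1 | h1 <;> rcases lt_or_gt_of_ne h' with h2 | h2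
  · rw [if_pos h1, List.mem_toFinset] at he
    rw [if_pos h2, List.mem_toFinset] at he'
    exact Or.inl (key _ _ _ _ h1 h2 he he')
  · rw [if_pos h1, List.mem_toFinset] at he
    rw [if_neg (not_lt.mpr h2.le), List.mem_toFinset] at he'
    exact Or.inr (key _ _ _ _ h1 h2 he he')
  · rw [if_neg (not_lt.mpr h1.le), List.mem_toFinset] at he
    rw [if_pos h2, List.mem_toFinset] at he'
    exact Or.inr (key _ _ _ _ h1 h2 he he').symm
  · rw [if_neg (not_lt.mpr h1.le), List.mem_toFinset] at he
    rw [if_neg (not_lt.mpr h2.le), List.mem_toFinset] at he'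
    exact Or.inl (key _ _ _ _ h1 h2 he he').symm

theorem Q_even (hinj : Function.Injective c) (hP : ∀ i j, i < j → (P i j).IsPath)
    (a b : Fin 10) (h : a ≠ b) (v : V) :
    Even ((Q P a b).filter (fun e => v ∈ e)).card ↔ (v ≠ c a ∧ v ≠ c b) := by
  have key : ∀ i j : Fin 10, i < j →
      (Even (((P i j).edges.toFinset).filter (fun e => v ∈ e)).card ↔ (v ≠ c i ∧ v ≠ c j)) := by
    intro i j hij
    have h1 := (hP i j hij).isTrail.even_countP_edges_iff v
    have h2 : (((P i j).edges.toFinset).filter (fun e => v ∈ e)).card =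
        (P i j).edges.countP (fun e => v ∈ e) := by
      have h3 : ((P i j).edges.toFinset).filter (fun e => v ∈ e) =
          ((P i j).edges.filter (fun e => decide (v ∈ e))).toFinset := by
        ext e; simp
      rw [List.countP_eq_length_filter, h3,
        List.toFinset_card_of_nodup ((hP i j hij).isTrail.edges_nodup.filter _)]
    rw [h2, h1]
    exact ⟨fun h => h (fun h => hij.ne (hinj h)), fun h _ => h⟩
  unfold Q
  rcases lt_or_gt_of_ne h with h1 | h1
  · rw [if_pos h1]; exact key a b h1
  · rw [if_neg (not_lt.mpr h1.le), key b a h1, and_comm]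

/-- the vertices of the `i`-th copy -/
def S (i : Fin 9) : Set V := {v | v.1 = i ∧ v.2 ≠ none}

/-- the edge joining the `i`-th copy to the rest -/
def br (i : Fin 9) : Sym2 V := s((i, some (0, 0)), (i, none))

theorem boundary (i : Fin 9) (u v : V) (h : G.Adj u v) (hu : u ∈ S i) (hv : v ∉ S i) :
    s(u, v) = br i := by
  obtain ⟨j, _ | h1⟩ := u
  · exact absurd rfl hu.2
  · obtain ⟨k, _ | h2⟩ := v
    · have h' : adjB (j, some h1) (k, none) = true := h
      simp only [adjB, Bool.and_eq_true, beq_iff_eq] at h'
      have hj : j = i := hu.1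
      obtain ⟨h3, h4⟩ := h'
      subst h3 h4 hj
      rfl
    · have h' : adjB (j, some h1) (k, some h2) = true := h
      simp only [adjB, Bool.and_eq_true, beq_iff_eq] at h'
      have hj : j = i := hu.1
      exact absurd ⟨h'.1.symm.trans hj, by simp⟩ hv

theorem br_mem (i : Fin 9) {u v : V} (p : G.Walk u v) (hu : u ∈ S i) (hv : v ∉ S i) :
    br i ∈ p.edges := by
  obtain ⟨d, hd, h1, h2⟩ := p.exists_boundary_dart (S i) hu hv
  rw [← boundary i _ _ d.adj h1 h2]
  exact List.mem_map_of_mem hd

theorem br_mem' (i : Fin 9) {u v : V} (p : G.Walk u v) (hu : u ∉ S i) (hv : v ∈ S i) :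
    br i ∈ p.edges := by
  have := br_mem i p.reverse hv hu
  rwa [Walk.edges_reverse, List.mem_reverse] at this

theorem support_sub (i : Fin 9) {u v : V} (p : G.Walk u v) (hp : p.IsPath) (hu : u ∈ S i)
    (hv : v ∈ S i) : ∀ t ∈ p.support, t ∈ S i := by
  classical
  intro t ht
  by_contra hne
  have h1 := br_mem i (p.takeUntil t ht) hu hne
  have h2 := br_mem' i (p.dropUntil t ht) hne hv
  have h3 := hp.isTrail.edges_nodup
  rw [← p.take_spec ht, Walk.edges_append] at h3
  exact (List.nodup_append.mp h3).2.2 _ h1 _ h2 rfl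

theorem same_copy (hinj : Function.Injective c) (hP : ∀ i j, i < j → (P i j).IsPath)
    (hd : ∀ i j k l, i < j → k < l → (i, j) ≠ (k, l) → ∀ e, e ∈ (P i j).edges →
      e ∉ (P k l).edges) : ∃ i, ∀ a, c a ∈ S i := by
  have hall : ∀ i a b, c a ∈ S i → c b ∈ S i := by
    intro i a b ha
    by_contra hb
    have hab : a ≠ b := by rintro rfl; exact hb ha
    have key : ∀ x y, c x ∈ S i → c y ∉ S i → br i ∈ Q P x y := by
      intro x y hx hy
      have hxy : x ≠ y := by rintro rfl; exact hy hx
      obtain ⟨p, -, hp⟩ := Q_path hP x y hxy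
      exact (hp _).mp (br_mem i p hx hy)
    obtain ⟨t, hta, htb⟩ : ∃ t : Fin 10, t ≠ a ∧ t ≠ b := by
      have : ∀ a b : Fin 10, ∃ t : Fin 10, t ≠ a ∧ t ≠ b := by decide
      exact this a b
    by_cases ht : c t ∈ S i
    · rcases Q_disj hd a b t b hab htb _ (key a b ha hb) (key t b ht hb) with h | h
      · exact hta h.1.symm
      · exact hab h.1
    · rcases Q_disj hd a b a t hab hta.symm _ (key a b ha hb) (key a t ha ht) with h | h
      · exact htb h.2.symm
      · exact hta h.1.symm
  by_contra hne
  push Not at hne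
  have hnone : ∀ a, (c a).2 = none := by
    intro a
    by_contra h
    obtain ⟨b, hb⟩ := hne (c a).1
    exact hb (hall _ a b ⟨rfl, h⟩)
  have : Function.Injective (fun a => (c a).1) := by
    intro a b hab
    exact hinj (Prod.ext hab ((hnone a).trans (hnone b).symm))
  have := Fintype.card_le_of_injective _ this
  simp at this

theorem no_immersion : ¬ HasImmersion G 10 := by
  classical
  rintro ⟨c, P, hinj, hP, hd⟩
  obtain ⟨i, hi⟩ := same_copy hinj hP hd
  -- coordinates of the corners
  have hh : ∀ a, ∃ h : Fin 4 × Fin 3, c a = (i, some h) := by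
    intro a
    obtain ⟨h1, h2⟩ := hi a
    obtain ⟨h, hh⟩ := Option.ne_none_iff_exists'.mp h2
    exact ⟨h, Prod.ext h1 hh⟩
  choose h hc using hh
  have hhinj : Function.Injective h := by
    intro a b hab
    apply hinj
    rw [hc, hc, hab]
  let w : Fin 4 × Fin 3 → V := fun u => (i, some u)
  have hwinj : ∀ u v, w u = w v → u = v := by
    intro u v huv
    simpa [w] using huv
  -- the edges of the paths
  have hedge : ∀ a b, a ≠ b → ∀ e ∈ Q P a b, ∀ v, w v ∈ e → ∃ u, u.1 ≠ v.1 ∧ e = s(w v, w u) := by
    intro a b hab e he v hv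
    obtain ⟨p, hp, hpe⟩ := Q_path hP a b hab
    have he' := (hpe e).mpr he
    have hsup := support_sub i p hp (hi a) (hi b)
    obtain ⟨y, rfl⟩ := Sym2.mem_iff_exists.mp hv
    have hy := hsup y (p.snd_mem_support_of_mem_edges he')
    have hadj : adjB (w v) y = true := p.adj_of_mem_edges he'
    obtain ⟨h1, h2⟩ := hy
    obtain ⟨u, hu⟩ := Option.ne_none_iff_exists'.mp h2
    have hyu : y = w u := Prod.ext h1 hu
    subst hyu
    refine ⟨u, ?_, rfl⟩
    simp only [w, adjB, Bool.and_eq_true, bne_iff_ne] at hadj
    exact hadj.2.symm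
  -- the edges at a corner
  let N : Fin 10 → Finset (Sym2 V) := fun a =>
    (Finset.univ.filter (fun u : Fin 4 × Fin 3 => u.1 ≠ (h a).1)).image (fun u => s(w (h a), w u))
  have hNcard : ∀ a, (N a).card = 9 := by
    intro a
    rw [Finset.card_image_of_injective]
    · have : ∀ x : Fin 4 × Fin 3,
        (Finset.univ.filter (fun u : Fin 4 × Fin 3 => u.1 ≠ x.1)).card = 9 := by decide
      exact this _
    · intro u v huv
      simp only [Sym2.eq_iff] at huv
      rcases huv with huv | huv
      · exact hwinj _ _ huv.2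
      · exact hwinj _ _ (huv.2.trans huv.1)
  have hbi : ∀ a, ((Finset.univ.erase a).biUnion
      (fun b => (Q P a b).filter (fun e => c a ∈ e))) ⊆ N a := by
    intro a e he
    rw [Finset.mem_biUnion] at he
    obtain ⟨b, hb, he⟩ := he
    rw [Finset.mem_erase] at hb
    rw [Finset.mem_filter] at he
    have hce : w (h a) ∈ e := by rw [show w (h a) = c a from (hc a).symm]; exact he.2
    obtain ⟨u, hu, rfl⟩ := hedge a b hb.1.symm e he.1 (h a) hce
    rw [Finset.mem_image]
    exact ⟨u, by simpa using hu, rfl⟩
  have hpos : ∀ a b, a ≠ b → 1 ≤ ((Q P a b).filter (fun e => c a ∈ e)).card := by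
    intro a b hab
    by_contra hlt
    have h0 : ((Q P a b).filter (fun e => c a ∈ e)).card = 0 := by omega
    have := (Q_even hinj hP a b hab (c a)).mp (by rw [h0]; exact ⟨0, rfl⟩)
    exact this.1 rfl
  have hcardbi : ∀ a, ((Finset.univ.erase a).biUnion
      (fun b => (Q P a b).filter (fun e => c a ∈ e))).card =
      ∑ b ∈ Finset.univ.erase a, ((Q P a b).filter (fun e => c a ∈ e)).card := by
    intro a
    apply Finset.card_biUnion
    intro b hb b' hb' hbb
    change Disjoint _ _
    rw [Finset.disjoint_left]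
    intro e he he'
    rw [Finset.mem_filter] at he he'
    rw [Finset.mem_coe, Finset.mem_erase] at hb hb'
    rcases Q_disj hd a b a b' hb.1.symm hb'.1.symm e he.1 he'.1 with h1 | h1
    · exact hbb h1.2
    · exact hb.1 h1.2
  have hsum9 : ∀ a : Fin 10, ∑ b ∈ Finset.univ.erase a, 1 = 9 := by
    intro a
    rw [Finset.sum_const, Finset.card_erase_of_mem (Finset.mem_univ a)]
    rfl
  have hone : ∀ a b, a ≠ b → ((Q P a b).filter (fun e => c a ∈ e)).card = 1 := by
    intro a b hab
    by_contra hne
    have h1 := hpos a b hab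
    have h2 : ∑ b ∈ Finset.univ.erase a, 1 <
        ∑ b ∈ Finset.univ.erase a, ((Q P a b).filter (fun e => c a ∈ e)).card := by
      apply Finset.sum_lt_sum
      · intro b' hb'
        rw [Finset.mem_erase] at hb'
        exact hpos a b' hb'.1.symm
      · exact ⟨b, by rw [Finset.mem_erase]; exact ⟨hab.symm, Finset.mem_univ _⟩, by omega⟩
    rw [hsum9, ← hcardbi] at h2
    have h3 := Finset.card_le_card (hbi a)
    rw [hNcard] at h3
    omega
  have hbieq : ∀ a, ((Finset.univ.erase a).biUnion
      (fun b => (Q P a b).filter (fun e => c a ∈ e))) = N a := by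
    intro a
    apply Finset.eq_of_subset_of_card_le (hbi a)
    rw [hNcard, hcardbi]
    refine le_trans (le_of_eq (hsum9 a).symm) ?_
    apply Finset.sum_le_sum
    intro b hb
    rw [Finset.mem_erase] at hb
    exact hpos a b hb.1.symm
  -- every edge at a corner starts a path
  have F4 : ∀ a v, v.1 ≠ (h a).1 → ∃ b, a ≠ b ∧ s(w (h a), w v) ∈ Q P a b := by
    intro a v hv
    have : s(w (h a), w v) ∈ N a := Finset.mem_image.mpr ⟨v, by simpa using hv, rfl⟩
    rw [← hbieq, Finset.mem_biUnion] at this
    obtain ⟨b, hb, he⟩ := this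
    rw [Finset.mem_erase] at hb
    rw [Finset.mem_filter] at he
    exact ⟨b, hb.1.symm, he.1⟩
  have F4' : ∀ a b, a ≠ b → ∀ e ∈ Q P a b, ∀ e' ∈ Q P a b, w (h a) ∈ e → w (h a) ∈ e' → e = e' := by
    intro a b hab e he e' he' h1 h2
    obtain ⟨f, hf⟩ := Finset.card_eq_one.mp (hone a b hab)
    have hca : w (h a) = c a := (hc a).symm
    rw [hca] at h1 h2
    have h3 : e ∈ (Q P a b).filter (fun e => c a ∈ e) := Finset.mem_filter.mpr ⟨he, h1⟩
    have h4 : e' ∈ (Q P a b).filter (fun e => c a ∈ e) := Finset.mem_filter.mpr ⟨he', h2⟩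
    rw [hf, Finset.mem_singleton] at h3 h4
    rw [h3, h4]
  have F5 : ∀ k l, k ≠ l → ∀ e ∈ Q P k l, ∀ a, w (h a) ∈ e → a = k ∨ a = l := by
    intro k l hkl e he a hae
    obtain ⟨u, hu, rfl⟩ := hedge k l hkl e he (h a) hae
    obtain ⟨b, hab, hb⟩ := F4 a u hu
    rcases Q_disj hd a b k l hab hkl _ hb he with h1 | h1
    · exact Or.inl h1.1
    · exact Or.inr h1.1
  have F6 : ∀ a b, a ≠ b → (h a).1 ≠ (h b).1 → s(w (h a), w (h b)) ∈ Q P a b := by
    intro a b hab hne
    obtain ⟨b', hab', hb'⟩ := F4 a (h b) hne.symm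
    rcases F5 a b' hab' _ hb' b (by simp) with h1 | h1
    · exact absurd h1.symm hab
    · subst h1; exact hb'
  -- the two vertices that are not corners
  have hX : (Finset.univ \ Finset.univ.image h).card = 2 := by
    rw [Finset.card_sdiff_of_subset (Finset.subset_univ _),
      Finset.card_image_of_injective _ hhinj]
    rfl
  obtain ⟨x, y, hxy, hXe⟩ := Finset.card_eq_two.mp hX
  have hnc : ∀ v, v ≠ x → v ≠ y → ∃ a, h a = v := by
    intro v hvx hvy
    by_contra hne
    have : v ∈ Finset.univ \ Finset.univ.image h := by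
      rw [Finset.mem_sdiff]
      refine ⟨Finset.mem_univ _, fun hv => ?_⟩
      rw [Finset.mem_image] at hv
      obtain ⟨a, -, ha⟩ := hv
      exact hne ⟨a, ha⟩
    rw [hXe, Finset.mem_insert, Finset.mem_singleton] at this
    exact this.elim hvx hvy
  have hxnc : ∀ a, h a ≠ x := by
    intro a ha
    have : x ∈ Finset.univ \ Finset.univ.image h := by rw [hXe]; simp
    rw [Finset.mem_sdiff, Finset.mem_image] at this
    exact this.2 ⟨a, Finset.mem_univ _, ha⟩
  -- a part consisting of corners
  have main : ∀ z : Fin 4, z ≠ x.1 → z ≠ y.1 →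
      ∃ a b, a ≠ b ∧ (h a).1 = z ∧ (h b).1 = z ∧ s(w x, w y) ∈ Q P a b := by
    intro z hzx hzy
    have hfull : ∀ q : Fin 3, ∃ a, h a = (z, q) := fun q =>
      hnc (z, q) (fun hq => hzx (by rw [← hq])) (fun hq => hzy (by rw [← hq]))
    choose f hf using hfull
    have hfinj : ∀ p q, p ≠ q → f p ≠ f q := by
      intro p q hpq hfe
      have := hf p
      rw [hfe, hf q] at this
      simp only [Prod.mk.injEq, true_and] at this
      exact hpq this.symm
    by_contra hno
    push Not at hno
    have h01 : f 0 ≠ f 1 := hfinj _ _ (by decide)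
    have h12 : f 1 ≠ f 2 := hfinj _ _ (by decide)
    have h02 : f 0 ≠ f 2 := hfinj _ _ (by decide)
    have hz : ∀ q, (h (f q)).1 = z := fun q => by rw [hf]
    let U : Finset (Sym2 V) := Q P (f 0) (f 1) ∪ (Q P (f 1) (f 2) ∪ Q P (f 0) (f 2))
    -- even number of edges of `U` at `x`
    have hev : Even (U.filter (fun e => w x ∈ e)).card := by
      have hwc : ∀ a, w x ≠ c a := by
        intro a ha
        rw [hc] at ha
        exact hxnc a (hwinj _ _ ha).symm
      have e1 := (Q_even hinj hP _ _ h01 (w x)).mpr ⟨hwc _, hwc _⟩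
      have e2 := (Q_even hinj hP _ _ h12 (w x)).mpr ⟨hwc _, hwc _⟩
      have e3 := (Q_even hinj hP _ _ h02 (w x)).mpr ⟨hwc _, hwc _⟩
      simp only [U, Finset.filter_union]
      rw [Finset.card_union_of_disjoint, Finset.card_union_of_disjoint]
      · exact e1.add (e2.add e3)
      · rw [Finset.disjoint_left]
        intro e he he'
        rw [Finset.mem_filter] at he he'
        rcases Q_disj hd _ _ _ _ h12 h02 e he.1 he'.1 with h1 | h1
        · exact h01 h1.1.symm
        · exact h12 h1.1
      · rw [Finset.disjoint_left]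
        intro e he he'
        rw [Finset.mem_union, Finset.mem_filter, Finset.mem_filter] at he'
        rw [Finset.mem_filter] at he
        rcases he' with he' | he'
        · rcases Q_disj hd _ _ _ _ h01 h12 e he.1 he'.1 with h1 | h1
          · exact h01 h1.1
          · exact h02 h1.1
        · rcases Q_disj hd _ _ _ _ h01 h02 e he.1 he'.1 with h1 | h1
          · exact h12 h1.2
          · exact h02 h1.1
    have hset : U.filter (fun e => w x ∈ e) =
        {s(w x, w (z, 0)), s(w x, w (z, 1)), s(w x, w (z, 2))} := by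
      ext e
      rw [Finset.mem_filter]
      constructor
      · rintro ⟨heU, hxe⟩
        have key : ∀ p q, p ≠ q → e ∈ Q P (f p) (f q) →
            e = s(w x, w (z, p)) ∨ e = s(w x, w (z, q)) := by
          intro p q hpq he
          obtain ⟨u, hu, rfl⟩ := hedge _ _ (hfinj p q hpq) e he x hxe
          have huy : u ≠ y := by
            rintro rfl
            exact hno _ _ (hfinj p q hpq) (hz p) (hz q) he
          have hux : u ≠ x := by
            rintro rfl
            exact hu rfl
          obtain ⟨a, rfl⟩ := hnc u hux huy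
          rcases F5 _ _ (hfinj p q hpq) _ he a (by simp) with h1 | h1
          · left; rw [h1, hf]
          · right; rw [h1, hf]
        simp only [Finset.mem_insert, Finset.mem_singleton]
        simp only [U, Finset.mem_union] at heU
        rcases heU with he | he | he
        · rcases key 0 1 (by decide) he with h1 | h1
          · exact Or.inl h1
          · exact Or.inr (Or.inl h1)
        · rcases key 1 2 (by decide) he with h1 | h1
          · exact Or.inr (Or.inl h1)
          · exact Or.inr (Or.inr h1)
        · rcases key 0 2 (by decide) he with h1 | h1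
          · exact Or.inl h1
          · exact Or.inr (Or.inr h1)
      · intro he
        have key : ∀ q : Fin 3, s(w x, w (z, q)) ∈ U := by
          intro q
          obtain ⟨b, hab, hb⟩ := F4 (f q) x (by rw [hz]; exact hzx.symm)
          have hbz : (h b).1 = z := by
            by_contra hne
            have h6 := F6 (f q) b hab (by rw [hz]; exact fun h => hne h.symm)
            have := F4' (f q) b hab _ hb _ h6 (by simp) (by simp)
            simp only [Sym2.eq_iff, true_and] at this
            rcases this with h1 | h1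
            · exact hxnc b (hwinj _ _ h1).symm
            · exact hxnc (f q) (hwinj _ _ h1.2).symm
          obtain ⟨r, hr⟩ : ∃ r, b = f r := by
            refine ⟨(h b).2, hhinj ?_⟩
            rw [hf]
            exact Prod.ext hbz rfl
          subst hr
          have hqr : q ≠ r := fun hqr => hab (by rw [hqr])
          have hm : s(w x, w (z, q)) ∈ Q P (f q) (f r) := by
            rw [Sym2.eq_swap, ← hf q]; exact hb
          have hcases : ∀ q r : Fin 3, q ≠ r → (q = 0 ∧ r = 1) ∨ (q = 1 ∧ r = 0) ∨ (q = 1 ∧ r = 2) ∨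
              (q = 2 ∧ r = 1) ∨ (q = 0 ∧ r = 2) ∨ (q = 2 ∧ r = 0) := by decide
          simp only [U, Finset.mem_union]
          rcases hcases q r hqr with ⟨rfl, rfl⟩ | ⟨rfl, rfl⟩ | ⟨rfl, rfl⟩ | ⟨rfl, rfl⟩ |
            ⟨rfl, rfl⟩ | ⟨rfl, rfl⟩
          · exact Or.inl hm
          · rw [Q_symm _ _ hab] at hm; exact Or.inl hm
          · exact Or.inr (Or.inl hm)
          · rw [Q_symm _ _ hab] at hm; exact Or.inr (Or.inl hm)
          · exact Or.inr (Or.inr hm)
          · rw [Q_symm _ _ hab] at hm; exact Or.inr (Or.inr hm)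
        simp only [Finset.mem_insert, Finset.mem_singleton] at he
        rcases he with rfl | rfl | rfl
        · exact ⟨key 0, by simp⟩
        · exact ⟨key 1, by simp⟩
        · exact ⟨key 2, by simp⟩
    have hne : ∀ p q : Fin 3, p ≠ q → s(w x, w (z, p)) ≠ s(w x, w (z, q)) := by
      intro p q hpq he
      simp only [Sym2.eq_iff, true_and] at he
      rcases he with h1 | h1
      · have := hwinj _ _ h1
        simp only [Prod.mk.injEq, true_and] at this
        exact hpq this
      · have := hwinj _ _ h1.1
        exact hzx (by rw [this])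
    rw [hset, Finset.card_insert_of_notMem, Finset.card_pair (hne 1 2 (by decide))] at hev
    · revert hev; decide
    · simp only [Finset.mem_insert, Finset.mem_singleton, not_or]
      exact ⟨hne 0 1 (by decide), hne 0 2 (by decide)⟩
  -- two such parts
  have hparts : ∀ p q : Fin 4, ∃ z z' : Fin 4, z ≠ z' ∧ z ≠ p ∧ z ≠ q ∧ z' ≠ p ∧ z' ≠ q := by decide
  obtain ⟨z, z', hzz, h1, h2, h3, h4⟩ := hparts x.1 y.1
  obtain ⟨a, b, hab, ha, hb, he⟩ := main z h1 h2
  obtain ⟨a', b', hab', ha', hb', he'⟩ := main z' h3 h4
  rcases Q_disj hd a b a' b' hab hab' _ he he' with h5 | h5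
  · apply hzz; rw [← ha, h5.1, ha']
  · apply hzz; rw [← ha, h5.1, hb']

end immersion

/-- There is a finite graph with minimum degree `9` and chromatic number `9` which has no immersion
of `K_10`. -/
theorem result : ∃ (V : Type) (_ : Fintype V) (G : SimpleGraph V) (_ : DecidableRel G.Adj),
    G.minDegree = 9 ∧ G.chromaticNumber = 9 ∧ ¬ HasImmersion G 10 :=
  ⟨V, inferInstance, G, inferInstance, minDegree_G, chromaticNumber_G, no_immersion⟩

end Pool.Agent.Results.MP_5ee7f3_co.ChromaticNine
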